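import Pool.Agent.Helper91_PR.Small
import Pool.Agent.Helper54_PR.XLaw

set_option autoImplicit false

/-!
# Module COST
-/

open MeasureTheory
open scoped ENNReal NNReal

namespace Pool.Agent.Helper91PR

open Pool.Agent.Helper91PC Pool.Agent.Helper54PR

theorem measurable_tw (a : ℕ) (φ : Fin (2 * a + 1) → Fin (2 * a + 1) → ℝ) (D : ℝ) (k : ℤ) :
    Measurable fun z : ℝ × (ℝ × ℝ) => tw a φ D z.1 k z.2.1 z.2.2 := by
  have h1 : ∀ k : ℤ, Measurable fun z : ℝ × (ℝ × ℝ) => idx a z.1 k z.2.1 := fun k =>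
    (Pool.Agent.Helper54PR.measurable_idx a k).comp
      (measurable_fst.prodMk (measurable_fst.comp measurable_snd))
  have h2 : ∀ k : ℤ, Measurable fun z : ℝ × (ℝ × ℝ) => idx a z.1 k z.2.2 := fun k =>
    (Pool.Agent.Helper54PR.measurable_idx a k).comp
      (measurable_fst.prodMk (measurable_snd.comp measurable_snd))
  unfold tw
  refine Measurable.ite ?_ ?_ measurable_const
  · exact measurableSet_eq_fun (h1 (k + 1)) (h2 (k + 1))
  · have h3 : Measurable fun p : ℤ × ℤ => φ (dig a p.1) (dig a p.2) := measurable_of_countable _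
    exact h3.comp ((h1 k).prodMk (h2 k))

/-- The basic set. -/
def En (a : ℕ) (n : ℕ) : Set ℝ := {x | |x| < ((2 * a + 1 : ℕ) : ℝ) ^ n / 4}

theorem En_tendsto {a : ℕ} (ha : 1 ≤ a) (P : Measure ℝ) [IsProbabilityMeasure P] :
    Filter.Tendsto (fun n : ℕ => P.real (En a n)) Filter.atTop (nhds 1) := by
  have hM := one_lt_M ha
  have hmono : Monotone fun n : ℕ => En a n := by
    apply monotone_nat_of_le_succ
    intro n x hx
    have hx' : |x| < ((2 * a + 1 : ℕ) : ℝ) ^ n / 4 := hx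
    change |x| < ((2 * a + 1 : ℕ) : ℝ) ^ (n + 1) / 4
    refine hx'.trans_le ?_
    have : ((2 * a + 1 : ℕ) : ℝ) ^ n ≤ ((2 * a + 1 : ℕ) : ℝ) ^ (n + 1) :=
      pow_le_pow_right₀ hM.le (Nat.le_succ n)
    linarith
  have h1 := tendsto_measure_iUnion_atTop (μ := P) hmono
  have h2 : (⋃ n : ℕ, En a n) = Set.univ := by
    ext x
    simp only [Set.mem_iUnion, Set.mem_univ, iff_true]
    have h := tendsto_pow_atTop_atTop_of_one_lt hM
    obtain ⟨n, hn⟩ := (Filter.tendsto_atTop_atTop.mp h) (4 * |x| + 1)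
    refine ⟨n, ?_⟩
    have := hn n le_rfl
    change |x| < ((2 * a + 1 : ℕ) : ℝ) ^ n / 4
    linarith
  rw [h2, measure_univ] at h1
  have h3 := (ENNReal.tendsto_toReal ENNReal.one_ne_top).comp h1
  simpa [Measure.real, Function.comp_def] using h3

theorem En_le_mass (hI : IdxStatement) {a : ℕ} (P : Measure ℝ) [IsProbabilityMeasure P]
    {v : ℝ} (h1 : 1 ≤ v) (h2 : v ≤ 2) (n : ℕ) : P.real (En a n) ≤ mass a P v (n : ℤ) 0 := by
  unfold mass
  refine measureReal_mono ?_ (measure_ne_top _ _)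
  intro x hx
  have hx' : |x| < ((2 * a + 1 : ℕ) : ℝ) ^ n / 4 := hx
  apply (hI a).2.2.2.2.2 v x n
  rw [abs_mul, abs_of_nonneg (by linarith : (0 : ℝ) ≤ v), zpow_natCast]
  have := abs_nonneg x
  nlinarith

theorem step1 (hI : IdxStatement) (hP : PairStatement) {a : ℕ} {q : ℝ}
    {φ : Fin (2 * a + 1) → Fin (2 * a + 1) → ℝ} {D : ℝ} (hpar : Par a q φ D)
    {Ω : Type} [MeasurableSpace Ω] {μ : Measure Ω} [IsProbabilityMeasure μ] (R : Rule a Ω μ φ D)
    (P Q : Measure ℝ) [IsProbabilityMeasure P] [IsProbabilityMeasure Q]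
    (π : Measure (ℝ × ℝ)) (h1 : π.map Prod.fst = P) (h2 : π.map Prod.snd = Q)
    {v : ℝ} (hv1 : 1 ≤ v) (hv2 : v ≤ 2) (n : ℕ) {τ : ℝ} (hτ : 0 < τ)
    (hτP : τ ≤ P.real (En a n)) (hτQ : τ ≤ Q.real (En a n)) :
    ∫⁻ ω, cost q (Yn R P n (v, ω)) (Yn R Q n (v, ω)) ∂(Measure.infinitePi fun _ : ℤ => μ) ≤
      ENNReal.ofReal (10 / τ) *
        ∑ s ∈ Finset.range (2 * n), ENNReal.ofReal ((((2 * a + 1 : ℕ) : ℝ) ^ ((n : ℤ) - s - 1)) ^ q) *
          ∫⁻ z, ENNReal.ofReal (tw a φ D v ((n : ℤ) - s - 1) z.1 z.2) ∂π := by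
  have hmP : τ ≤ mass a P v (n : ℤ) 0 := hτP.trans (En_le_mass hI P hv1 hv2 n)
  have hmQ : τ ≤ mass a Q v (n : ℤ) 0 := hτQ.trans (En_le_mass hI Q hv1 hv2 n)
  have h := hP a q φ D hpar Ω μ R P Q π h1 h2 v (by linarith) (n : ℤ) (2 * n)
    (hτ.trans_le hmP) (hτ.trans_le hmQ)
  have hle : ENNReal.ofReal (10 / min (mass a P v n 0) (mass a Q v n 0)) ≤
      ENNReal.ofReal (10 / τ) := by
    apply ENNReal.ofReal_le_ofReal
    apply div_le_div_of_nonneg_left (by norm_num) hτ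
    exact le_min hmP hmQ
  refine le_trans ?_ (h.trans (mul_le_mul_left hle _))
  apply lintegral_mono
  intro ω
  unfold cost
  apply ENNReal.ofReal_le_ofReal
  apply Real.rpow_le_rpow (abs_nonneg _) _ hpar.q_pos.le
  have e : Yn R P n (v, ω) - Yn R Q n (v, ω) =
      ((desc R P v ω n (2 * n) : ℝ) - desc R Q v ω n (2 * n)) *
        ((2 * a + 1 : ℕ) : ℝ) ^ (-(n : ℤ)) / v := by
    unfold Yn
    ring
  have e2 : ((n : ℤ) - ((2 * n : ℕ) : ℤ)) = -(n : ℤ) := by push_cast; ring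
  have hMpos : (0 : ℝ) < ((2 * a + 1 : ℕ) : ℝ) ^ (-(n : ℤ)) := by positivity
  rw [e, e2, abs_div, abs_mul, abs_of_pos hMpos, abs_of_pos (by linarith : (0 : ℝ) < v)]
  rw [div_le_iff₀ (by linarith)]
  have h0 : 0 ≤ |(desc R P v ω n (2 * n) : ℝ) - desc R Q v ω n (2 * n)| *
      ((2 * a + 1 : ℕ) : ℝ) ^ (-(n : ℤ)) := by positivity
  nlinarith

theorem step3 (hA : AvgStatement) (hS : ScaleStatement) {a : ℕ} {q : ℝ}
    {φ : Fin (2 * a + 1) → Fin (2 * a + 1) → ℝ} {D : ℝ} (hpar : Par a q φ D)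
    (π : Measure (ℝ × ℝ)) [SFinite π] (n : ℕ) :
    ∫⁻ v, ∑ s ∈ Finset.range (2 * n),
        ENNReal.ofReal ((((2 * a + 1 : ℕ) : ℝ) ^ ((n : ℤ) - s - 1)) ^ q) *
          ∫⁻ z, ENNReal.ofReal (tw a φ D v ((n : ℤ) - s - 1) z.1 z.2) ∂π ∂muV ≤
      ENNReal.ofReal 960 * ∫⁻ z, cost q z.1 z.2 ∂π := by
  have hmeas : ∀ k : ℤ, Measurable fun z : ℝ × (ℝ × ℝ) =>
      ENNReal.ofReal (tw a φ D z.1 k z.2.1 z.2.2) := fun k =>
    (measurable_tw a φ D k).ennreal_ofReal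
  have hm2 : ∀ k : ℤ, Measurable fun v : ℝ =>
      ∫⁻ z : ℝ × ℝ, ENNReal.ofReal (tw a φ D v k z.1 z.2) ∂π := fun k =>
    (hmeas k).lintegral_prod_right'
  rw [lintegral_finsetSum _ fun (s : ℕ) _ => (hm2 ((n : ℤ) - (s : ℤ) - 1)).const_mul _]
  have hterm : ∀ s ∈ Finset.range (2 * n),
      ∫⁻ v, ENNReal.ofReal ((((2 * a + 1 : ℕ) : ℝ) ^ ((n : ℤ) - s - 1)) ^ q) *
          ∫⁻ z, ENNReal.ofReal (tw a φ D v ((n : ℤ) - s - 1) z.1 z.2) ∂π ∂muV ≤
      ∫⁻ z : ℝ × ℝ, ENNReal.ofReal ((((2 * a + 1 : ℕ) : ℝ) ^ ((n : ℤ) - s - 1)) ^ q *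
        (3 * min (16 * |z.1 - z.2| / ((2 * a + 1 : ℕ) : ℝ) ^ ((n : ℤ) - s - 1)) D)) ∂π := by
    intro s _
    set k : ℤ := (n : ℤ) - s - 1 with hk
    rw [lintegral_const_mul _ (hm2 k)]
    rw [lintegral_lintegral_swap (hmeas k).aemeasurable]
    rw [← lintegral_const_mul' _ _ ENNReal.ofReal_ne_top]
    apply lintegral_mono
    intro z
    beta_reduce
    rw [ENNReal.ofReal_mul (by positivity)]
    exact mul_le_mul_right (hA a q φ D hpar k z.1 z.2) _
  refine (Finset.sum_le_sum hterm).trans ?_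
  have hmeas2 : ∀ k : ℤ, Measurable fun z : ℝ × ℝ =>
      ENNReal.ofReal ((((2 * a + 1 : ℕ) : ℝ) ^ k) ^ q *
        (3 * min (16 * |z.1 - z.2| / ((2 * a + 1 : ℕ) : ℝ) ^ k) D)) := by
    intro k
    fun_prop
  rw [← lintegral_finsetSum _ fun (s : ℕ) _ => hmeas2 _, ← lintegral_const_mul' _ _ ENNReal.ofReal_ne_top]
  apply lintegral_mono
  intro z
  simp only
  have hnn : ∀ s ∈ Finset.range (2 * n), 0 ≤ (((2 * a + 1 : ℕ) : ℝ) ^ ((n : ℤ) - s - 1)) ^ q *
        (3 * min (16 * |z.1 - z.2| / ((2 * a + 1 : ℕ) : ℝ) ^ ((n : ℤ) - s - 1)) D) := by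
    intro s _
    have := hpar.D_pos
    have h1 : 0 ≤ min (16 * |z.1 - z.2| / ((2 * a + 1 : ℕ) : ℝ) ^ ((n : ℤ) - s - 1)) D :=
      le_min (by positivity) this.le
    positivity
  rw [← ENNReal.ofReal_sum_of_nonneg hnn]
  unfold cost
  rw [← ENNReal.ofReal_mul (by norm_num)]
  apply ENNReal.ofReal_le_ofReal
  have hinj : ∀ x ∈ Finset.range (2 * n), ∀ y ∈ Finset.range (2 * n),
      ((n : ℤ) - (x : ℤ) - 1) = ((n : ℤ) - (y : ℤ) - 1) → x = y := by
    intro x _ y _ h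
    omega
  have hsc := hS a q φ D hpar (16 * |z.1 - z.2|) (by positivity)
    ((Finset.range (2 * n)).image fun s : ℕ => (n : ℤ) - (s : ℤ) - 1)
  rw [Finset.sum_image hinj] at hsc
  have e : ∑ s ∈ Finset.range (2 * n), (((2 * a + 1 : ℕ) : ℝ) ^ ((n : ℤ) - s - 1)) ^ q *
        (3 * min (16 * |z.1 - z.2| / ((2 * a + 1 : ℕ) : ℝ) ^ ((n : ℤ) - s - 1)) D) =
      3 * ∑ s ∈ Finset.range (2 * n), (((2 * a + 1 : ℕ) : ℝ) ^ ((n : ℤ) - s - 1)) ^ q *
        min (16 * |z.1 - z.2| / ((2 * a + 1 : ℕ) : ℝ) ^ ((n : ℤ) - s - 1)) D := by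
    rw [Finset.mul_sum]
    apply Finset.sum_congr rfl
    intro s _
    ring
  rw [e]
  have h16 : (16 * |z.1 - z.2|) ^ q ≤ 16 * |z.1 - z.2| ^ q := by
    rw [Real.mul_rpow (by norm_num) (abs_nonneg _)]
    apply mul_le_mul_of_nonneg_right _ (by positivity)
    calc (16 : ℝ) ^ q ≤ 16 ^ (1 : ℝ) :=
          Real.rpow_le_rpow_of_exponent_le (by norm_num) hpar.q_lt.le
      _ = 16 := Real.rpow_one _
  nlinarith

theorem cost_thm (hI : IdxStatement) (hA : AvgStatement) (hS : ScaleStatement)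
    (hP : PairStatement) (hM : MeasStatement) : CostStatement := by
  intro a q φ D hpar Ω _ μ _ R P Q _ _ π h1 h2
  have hπ : IsProbabilityMeasure π := by
    constructor
    have : (π.map Prod.fst) Set.univ = 1 := by rw [h1]; exact measure_univ
    rwa [Measure.map_apply measurable_fst MeasurableSet.univ, Set.preimage_univ] at this
  set m := muV.prod (Measure.infinitePi fun _ : ℤ => μ) with hm
  set C : ℝ≥0∞ := ∫⁻ z, cost q z.1 z.2 ∂π with hC
  have hYP := (hM a Ω μ φ D R P).2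
  have hYQ := (hM a Ω μ φ D R Q).2
  have hmeasn : ∀ n : ℕ, Measurable fun z => cost q (Yn R P n z) (Yn R Q n z) := fun n =>
    (measurable_cost' q).comp ((hYP n).prodMk (hYQ n))
  have hcont : Continuous fun z : ℝ × ℝ => cost q z.1 z.2 := by
    unfold cost
    apply ENNReal.continuous_ofReal.comp
    exact (continuous_fst.sub continuous_snd).abs.rpow_const fun _ => Or.inr hpar.q_pos.le
  -- Fatou
  have hfatou : ∫⁻ z, cost q (XP R P z) (XP R Q z) ∂m ≤
      Filter.liminf (fun n : ℕ => ∫⁻ z, cost q (Yn R P n z) (Yn R Q n z) ∂m) Filter.atTop := by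
    refine le_trans (le_of_eq ?_) (lintegral_liminf_le hmeasn)
    apply lintegral_congr_ae
    filter_upwards [ae_prod_tendsto hI hpar.a_pos R P, ae_prod_tendsto hI hpar.a_pos R Q]
      with z hz1 hz2
    have := (hcont.tendsto (XP R P z, XP R Q z)).comp (hz1.prodMk_nhds hz2)
    exact this.liminf_eq.symm
  refine hfatou.trans ?_
  -- the bound for `n` large
  set τ : ℕ → ℝ := fun n => min (P.real (En a n)) (Q.real (En a n)) with hτ
  have hτt : Filter.Tendsto τ Filter.atTop (nhds 1) := by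
    have := (En_tendsto hpar.a_pos P).min (En_tendsto hpar.a_pos Q)
    simpa using this
  have hbound : ∀ᶠ n in Filter.atTop, ∫⁻ z, cost q (Yn R P n z) (Yn R Q n z) ∂m ≤
      ENNReal.ofReal (10 / τ n) * (ENNReal.ofReal 960 * C) := by
    filter_upwards [hτt.eventually (lt_mem_nhds (by norm_num : (0 : ℝ) < 1))] with n hn
    rw [hm, lintegral_prod _ (hmeasn n).aemeasurable]
    have h3 : ∫⁻ v, ∫⁻ ω, cost q (Yn R P n (v, ω)) (Yn R Q n (v, ω))
        ∂(Measure.infinitePi fun _ : ℤ => μ) ∂muV ≤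
        ∫⁻ v, ENNReal.ofReal (10 / τ n) * ∑ s ∈ Finset.range (2 * n),
          ENNReal.ofReal ((((2 * a + 1 : ℕ) : ℝ) ^ ((n : ℤ) - s - 1)) ^ q) *
            ∫⁻ z, ENNReal.ofReal (tw a φ D v ((n : ℤ) - s - 1) z.1 z.2) ∂π ∂muV := by
      apply lintegral_mono_ae
      have hae : ∀ᵐ v ∂muV, v ∈ Set.Icc (1 : ℝ) 2 := by
        unfold muV
        exact ae_restrict_mem measurableSet_Icc
      filter_upwards [hae] with v hv
      exact step1 hI hP hpar R P Q π h1 h2 hv.1 hv.2 n hn (min_le_left _ _) (min_le_right _ _)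
    refine h3.trans ?_
    rw [lintegral_const_mul' _ _ ENNReal.ofReal_ne_top]
    exact mul_le_mul_right (step3 hA hS hpar π n) _
  have hlim : Filter.Tendsto (fun n => ENNReal.ofReal (10 / τ n) * (ENNReal.ofReal 960 * C))
      Filter.atTop (nhds (ENNReal.ofReal 9600 * C)) := by
    have h3 : Filter.Tendsto (fun n => ENNReal.ofReal (10 / τ n)) Filter.atTop
        (nhds (ENNReal.ofReal 10)) := by
      apply ENNReal.tendsto_ofReal
      have := (tendsto_const_nhds (x := (10 : ℝ))).div hτt (by norm_num)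
      rw [div_one] at this
      exact this
    have h4 := ENNReal.Tendsto.mul_const (b := ENNReal.ofReal 960 * C) h3 (Or.inl (by simp))
    have e : ENNReal.ofReal 10 * (ENNReal.ofReal 960 * C) = ENNReal.ofReal 9600 * C := by
      rw [← mul_assoc, ← ENNReal.ofReal_mul (by norm_num)]
      norm_num
    rwa [e] at h4
  calc Filter.liminf (fun n : ℕ => ∫⁻ z, cost q (Yn R P n z) (Yn R Q n z) ∂m) Filter.atTop
      ≤ Filter.liminf (fun n => ENNReal.ofReal (10 / τ n) * (ENNReal.ofReal 960 * C))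
        Filter.atTop := Filter.liminf_le_liminf hbound
    _ = ENNReal.ofReal 9600 * C := hlim.liminf_eq

end Pool.Agent.Helper91PR
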