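import Pool.Agent.Helper91_PC.Defs

set_option autoImplicit false

/-!
# A uniform bound for the pairwise coupling ratio: definitions and module statements

`M = 2 a + 1` is odd.  For `v ∈ [1, 2]` the cells of level `k ∈ ℤ` are the intervals
`{x | idx a v k x = i}`, `i ∈ ℤ`, of length `M ^ k / v` centred at `i * M ^ k / v`.
-/

open MeasureTheory
open scoped ENNReal NNReal

namespace Pool.Agent.Helper91PR

open Pool.Agent.Helper91PC

/-- Index of the cell of level `k` containing `x`. -/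
noncomputable def idx (a : ℕ) (v : ℝ) (k : ℤ) (x : ℝ) : ℤ :=
  ⌊v * x / ((2 * a + 1 : ℕ) : ℝ) ^ k + 1 / 2⌋

/-- The child with number `c` of the cell `i`. -/
def child (a : ℕ) (i : ℤ) (c : Fin (2 * a + 1)) : ℤ := (2 * a + 1 : ℕ) * i + (c : ℕ) - a

/-- The parent of a cell. -/
def par (a : ℕ) (j : ℤ) : ℤ := (j + a) / (2 * a + 1 : ℕ)

/-- The number of a cell as a child of its parent. -/
def dig (a : ℕ) (j : ℤ) : Fin (2 * a + 1) :=
  ⟨((j + a) % (2 * a + 1 : ℕ)).toNat, by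
    have h1 : 0 ≤ (j + a) % (2 * a + 1 : ℕ) := Int.emod_nonneg _ (by positivity)
    have h2 : (j + a) % (2 * a + 1 : ℕ) < (2 * a + 1 : ℕ) := Int.emod_lt_of_pos _ (by positivity)
    omega⟩

/-- A rule for choosing a child: for every probability vector `p` the random child `s p` has law
`p`, and for two probability vectors coming from a (partial) joint distribution `m, e1, e2` the
expected cost `φ` is controlled. -/
structure Rule (a : ℕ) (Ω : Type) [MeasurableSpace Ω] (μ : Measure Ω)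
    (φ : Fin (2 * a + 1) → Fin (2 * a + 1) → ℝ) (D : ℝ) where
  /-- the choice -/
  s : (Fin (2 * a + 1) → ℝ) → Ω → Fin (2 * a + 1)
  meas : Measurable fun z : (Fin (2 * a + 1) → ℝ) × Ω => s z.1 z.2
  law : ∀ p : Fin (2 * a + 1) → ℝ, (∀ c, 0 ≤ p c) → ∑ c, p c = 1 →
    ∀ c, μ.real {ω | s p ω = c} = p c
  pair : ∀ (m : Fin (2 * a + 1) → Fin (2 * a + 1) → ℝ) (e1 e2 : Fin (2 * a + 1) → ℝ),
    (∀ c c', 0 ≤ m c c') → (∀ c, 0 ≤ e1 c) → (∀ c, 0 ≤ e2 c) →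
    0 < ∑ c, ∑ c', m c c' + ∑ c, e1 c → 0 < ∑ c, ∑ c', m c c' + ∑ c, e2 c →
    min (∑ c, ∑ c', m c c' + ∑ c, e1 c) (∑ c, ∑ c', m c c' + ∑ c, e2 c) *
      ∫ ω, φ (s (fun c => (∑ c', m c c' + e1 c) / (∑ c, ∑ c', m c c' + ∑ c, e1 c)) ω)
        (s (fun c' => (∑ c, m c c' + e2 c') / (∑ c, ∑ c', m c c' + ∑ c, e2 c)) ω) ∂μ ≤
      2 * (∑ c, ∑ c', φ c c' * m c c' + D * (∑ c, e1 c + ∑ c, e2 c))

/-- Mass of the cell `i` of level `k`. -/
noncomputable def mass (a : ℕ) (P : Measure ℝ) (v : ℝ) (k i : ℤ) : ℝ :=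
  P.real {x | idx a v k x = i}

/-- Conditional probabilities of the children of the cell `i` of level `k + 1`. -/
noncomputable def cv (a : ℕ) (P : Measure ℝ) (v : ℝ) (k i : ℤ) : Fin (2 * a + 1) → ℝ :=
  fun c => mass a P v k (child a i c) / mass a P v (k + 1) i

section
variable {a : ℕ} {Ω : Type} [MeasurableSpace Ω] {μ : Measure Ω}
  {φ : Fin (2 * a + 1) → Fin (2 * a + 1) → ℝ} {D : ℝ}

/-- Index (at level `n - t`) of the random cell after `t` steps down from the cell `0` of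
level `n`. -/
noncomputable def desc (R : Rule a Ω μ φ D) (P : Measure ℝ) (v : ℝ) (ω : ℤ → Ω) (n : ℤ) : ℕ → ℤ
  | 0 => 0
  | t + 1 => child a (desc R P v ω n t)
      (R.s (cv a P v (n - t - 1) (desc R P v ω n t)) (ω (n - t - 1)))

/-- The centre of the random cell of level `-n`, starting from level `n`. -/
noncomputable def Yn (R : Rule a Ω μ φ D) (P : Measure ℝ) (n : ℕ) (z : ℝ × (ℤ → Ω)) : ℝ :=
  (desc R P z.1 z.2 n (2 * n) : ℝ) * ((2 * a + 1 : ℕ) : ℝ) ^ (-(n : ℤ)) / z.1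

/-- The random variable with law `P`. -/
noncomputable def XP (R : Rule a Ω μ φ D) (P : Measure ℝ) (z : ℝ × (ℤ → Ω)) : ℝ :=
  Filter.limUnder Filter.atTop fun n : ℕ => Yn R P n z

end

/-- Cost of the pair `x, y` at level `k`. -/
noncomputable def tw (a : ℕ) (φ : Fin (2 * a + 1) → Fin (2 * a + 1) → ℝ) (D v : ℝ) (k : ℤ)
    (x y : ℝ) : ℝ :=
  if idx a v (k + 1) x = idx a v (k + 1) y then φ (dig a (idx a v k x)) (dig a (idx a v k y))
  else 2 * D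

/-- The law of the dilation. -/
noncomputable def muV : Measure ℝ := volume.restrict (Set.Icc 1 2)

/-- Hypotheses on the parameters. -/
structure Par (a : ℕ) (q : ℝ) (φ : Fin (2 * a + 1) → Fin (2 * a + 1) → ℝ) (D : ℝ) : Prop where
  q_pos : 0 < q
  q_lt : q < 1
  a_pos : 1 ≤ a
  four_le : 4 ≤ ((2 * a + 1 : ℕ) : ℝ) ^ q
  four_le' : 4 ≤ ((2 * a + 1 : ℕ) : ℝ) ^ (1 - q)
  φ_nonneg : ∀ c c', 0 ≤ φ c c'
  φ_self : ∀ c, φ c c = 0
  φ_le : ∀ c c', φ c c' ≤ D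
  φ_le_dist : ∀ c c' : Fin (2 * a + 1), φ c c' ≤ |((c : ℕ) : ℝ) - (c' : ℕ)|
  pow_le : ∀ c c' : Fin (2 * a + 1), c ≠ c' → (|((c : ℕ) : ℝ) - (c' : ℕ)| + 1) ^ q ≤ 5 * φ c c'
  D_pos : 0 < D
  D_le : D ≤ (2 * a + 1 : ℕ)
  D_or : D ≤ 1 ∨ ((2 * a + 1 : ℕ) : ℝ) ^ (1 - q) ≤ 5

/-! ## Module statements -/

/-- IDX: elementary facts on cells. -/
def IdxStatement : Prop :=
  ∀ a : ℕ,
    (∀ (v : ℝ) (k : ℤ) (x : ℝ), par a (idx a v k x) = idx a v (k + 1) x) ∧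
    (∀ (i : ℤ) (c : Fin (2 * a + 1)), par a (child a i c) = i ∧ dig a (child a i c) = c) ∧
    (∀ j : ℤ, child a (par a j) (dig a j) = j) ∧
    (∀ (k : ℤ), Measurable fun z : ℝ × ℝ => idx a z.1 k z.2) ∧
    (∀ (v : ℝ) (k : ℤ) (x : ℝ), 0 < v →
      |x - (idx a v k x : ℝ) * ((2 * a + 1 : ℕ) : ℝ) ^ k / v| ≤
        ((2 * a + 1 : ℕ) : ℝ) ^ k / (2 * v)) ∧
    (∀ (v x : ℝ) (k : ℤ), |v * x| < ((2 * a + 1 : ℕ) : ℝ) ^ k / 2 → idx a v k x = 0)

/-- DIL: random dilations. -/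
def DilStatement : Prop :=
  ∀ x y : ℝ, ∫⁻ v in Set.Icc (1 : ℝ) 2,
    ENNReal.ofReal |((⌊v * x + 1 / 2⌋ : ℤ) : ℝ) - (⌊v * y + 1 / 2⌋ : ℤ)| ≤
      ENNReal.ofReal (16 * |x - y|)

/-- AVG: the average cost of a pair at one level. -/
def AvgStatement : Prop :=
  ∀ (a : ℕ) (q : ℝ) (φ : Fin (2 * a + 1) → Fin (2 * a + 1) → ℝ) (D : ℝ), Par a q φ D →
    ∀ (k : ℤ) (x y : ℝ), ∫⁻ v, ENNReal.ofReal (tw a φ D v k x y) ∂muV ≤
      ENNReal.ofReal (3 * min (16 * |x - y| / ((2 * a + 1 : ℕ) : ℝ) ^ k) D)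

/-- SCALE: the sum over the levels. -/
def ScaleStatement : Prop :=
  ∀ (a : ℕ) (q : ℝ) (φ : Fin (2 * a + 1) → Fin (2 * a + 1) → ℝ) (D : ℝ), Par a q φ D →
    ∀ (d : ℝ), 0 ≤ d → ∀ S : Finset ℤ,
      ∑ k ∈ S, (((2 * a + 1 : ℕ) : ℝ) ^ k) ^ q * min (d / ((2 * a + 1 : ℕ) : ℝ) ^ k) D ≤
        20 * d ^ q

/-- RULEQ: the quantile rule. -/
def RuleQStatement : Prop :=
  ∀ a : ℕ, Nonempty (Rule a ℝ muV (fun c c' => |((c : ℕ) : ℝ) - (c' : ℕ)|) (2 * a))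

/-- RULER: the rejection rule. -/
def RuleRStatement : Prop :=
  ∀ a : ℕ, ∃ (Ω : Type) (_ : MeasurableSpace Ω) (_ : StandardBorelSpace Ω) (μ : Measure Ω)
    (_ : IsProbabilityMeasure μ),
    Nonempty (Rule a Ω μ (fun c c' => if c = c' then 0 else 1) 1)

/-- PARAM: choice of the number of children. -/
def ParamStatement : Prop :=
  (∀ q : ℝ, 1 / 2 ≤ q → q < 1 → ∃ a : ℕ,
    Par a q (fun c c' => |((c : ℕ) : ℝ) - (c' : ℕ)|) (2 * a)) ∧
  (∀ q : ℝ, 0 < q → q ≤ 1 / 2 → ∃ a : ℕ, Par a q (fun c c' => if c = c' then 0 else 1) 1)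

open Classical in
/-- LAW: the law of the random cell. -/
def DescLawStatement : Prop :=
  ∀ (a : ℕ) (Ω : Type) [MeasurableSpace Ω] (μ : Measure Ω) [IsProbabilityMeasure μ]
    (φ : Fin (2 * a + 1) → Fin (2 * a + 1) → ℝ) (D : ℝ) (R : Rule a Ω μ φ D)
    (P : Measure ℝ) [IsProbabilityMeasure P] (v : ℝ), 0 < v → ∀ (n : ℤ) (t : ℕ) (i : ℤ),
    0 < mass a P v n 0 →
    (Measure.infinitePi fun _ : ℤ => μ).real {ω | desc R P v ω n t = i} =
      P.real {x | idx a v n x = 0 ∧ idx a v (n - t) x = i} / mass a P v n 0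

/-- PAIR: the expected cost of the descents for two measures. -/
def PairStatement : Prop :=
  ∀ (a : ℕ) (q : ℝ) (φ : Fin (2 * a + 1) → Fin (2 * a + 1) → ℝ) (D : ℝ), Par a q φ D →
    ∀ (Ω : Type) [MeasurableSpace Ω] (μ : Measure Ω) [IsProbabilityMeasure μ]
    (R : Rule a Ω μ φ D) (P Q : Measure ℝ) [IsProbabilityMeasure P] [IsProbabilityMeasure Q]
    (π : Measure (ℝ × ℝ)), π.map Prod.fst = P → π.map Prod.snd = Q →
    ∀ v : ℝ, 0 < v → ∀ (n : ℤ) (t : ℕ), 0 < mass a P v n 0 → 0 < mass a Q v n 0 →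
    ∫⁻ ω, ENNReal.ofReal ((|(desc R P v ω n t : ℝ) - desc R Q v ω n t| *
        ((2 * a + 1 : ℕ) : ℝ) ^ (n - t)) ^ q) ∂(Measure.infinitePi fun _ : ℤ => μ) ≤
      ENNReal.ofReal (10 / min (mass a P v n 0) (mass a Q v n 0)) *
        ∑ s ∈ Finset.range t, ENNReal.ofReal ((((2 * a + 1 : ℕ) : ℝ) ^ (n - s - 1)) ^ q) *
          ∫⁻ z, ENNReal.ofReal (tw a φ D v (n - s - 1) z.1 z.2) ∂π

/-- MEAS: joint measurability. -/
def MeasStatement : Prop :=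
  ∀ (a : ℕ) (Ω : Type) [MeasurableSpace Ω] (μ : Measure Ω) [IsProbabilityMeasure μ]
    (φ : Fin (2 * a + 1) → Fin (2 * a + 1) → ℝ) (D : ℝ) (R : Rule a Ω μ φ D)
    (P : Measure ℝ) [IsProbabilityMeasure P],
    (∀ (n : ℤ) (t : ℕ), Measurable fun z : ℝ × (ℤ → Ω) => desc R P z.1 z.2 n t) ∧
    ∀ n : ℕ, Measurable (Yn R P n)

/-- CONV: almost sure convergence. -/
def ConvStatement : Prop :=
  ∀ (a : ℕ) (Ω : Type) [MeasurableSpace Ω] (μ : Measure Ω) [IsProbabilityMeasure μ]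
    (φ : Fin (2 * a + 1) → Fin (2 * a + 1) → ℝ) (D : ℝ) (R : Rule a Ω μ φ D)
    (P : Measure ℝ) [IsProbabilityMeasure P], 1 ≤ a → ∀ v : ℝ, 0 < v →
    ∀ᵐ ω ∂(Measure.infinitePi fun _ : ℤ => μ),
      Filter.Tendsto (fun n : ℕ => Yn R P n (v, ω)) Filter.atTop (nhds (XP R P (v, ω)))

/-- XLAW: the law of the limit. -/
def XLawStatement : Prop :=
  ∀ (a : ℕ) (Ω : Type) [MeasurableSpace Ω] (μ : Measure Ω) [IsProbabilityMeasure μ]
    (φ : Fin (2 * a + 1) → Fin (2 * a + 1) → ℝ) (D : ℝ) (R : Rule a Ω μ φ D)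
    (P : Measure ℝ) [IsProbabilityMeasure P], 1 ≤ a →
    AEMeasurable (XP R P) (muV.prod (Measure.infinitePi fun _ : ℤ => μ)) ∧
    (muV.prod (Measure.infinitePi fun _ : ℤ => μ)).map (XP R P) = P

/-- COST: the expected cost of the limits. -/
def CostStatement : Prop :=
  ∀ (a : ℕ) (q : ℝ) (φ : Fin (2 * a + 1) → Fin (2 * a + 1) → ℝ) (D : ℝ), Par a q φ D →
    ∀ (Ω : Type) [MeasurableSpace Ω] (μ : Measure Ω) [IsProbabilityMeasure μ]
    (R : Rule a Ω μ φ D) (P Q : Measure ℝ) [IsProbabilityMeasure P] [IsProbabilityMeasure Q]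
    (π : Measure (ℝ × ℝ)), π.map Prod.fst = P → π.map Prod.snd = Q →
    ∫⁻ z, cost q (XP R P z) (XP R Q z) ∂(muV.prod (Measure.infinitePi fun _ : ℤ => μ)) ≤
      ENNReal.ofReal 9600 * ∫⁻ z, cost q z.1 z.2 ∂π

/-- SMALL: the bound for `q < 1`. -/
def SmallStatement : Prop := ∀ q : ℝ, 0 < q → q < 1 → optRatio q ≤ ENNReal.ofReal 9600

/-- LARGE: the quantile coupling is optimal for `q ≥ 1`. -/
def LargeStatement : Prop := ∀ q : ℝ, 1 ≤ q → optRatio q ≤ 1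

/-- FINAL. -/
def FinalStatement : Prop := ∃ K : ℝ≥0, ∀ q : ℝ, 0 < q → optRatio q ≤ K

end Pool.Agent.Helper91PR
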