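import Pool.Agent.Helper91_PR.CostP
import Pool.Agent.Helper51_PR.Idx
import Pool.Agent.Helper51_PR.Dil
import Pool.Agent.Helper25_PR.Pair
import Pool.Agent.Helper25_PR.Law
import Pool.Agent.Helper54_PR.Param
import Pool.Agent.Helper86_PR.RuleQ
import Pool.Agent.Helper86_PR.RuleR
import Pool.Agent.Helper86_PR.Large

set_option autoImplicit false

/-!
# The uniform bound for the optimal pairwise coupling ratio
-/

namespace Pool.Agent.Helper91PR

theorem final_all : FinalStatement :=
  final
    (small
      (Pool.Agent.Helper54PR.xlaw Pool.Agent.Helper51_PR.idxStatement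
        (Pool.Agent.Helper25PR.law Pool.Agent.Helper51_PR.idxStatement))
      (cost_thm Pool.Agent.Helper51_PR.idxStatement Pool.Agent.Helper51_PR.avgStatement
        Pool.Agent.Helper51_PR.scaleStatement
        (Pool.Agent.Helper25PR.pair Pool.Agent.Helper51_PR.idxStatement)
        Pool.Agent.Helper54PR.meas)
      Pool.Agent.Helper86PR.ruleQ Pool.Agent.Helper86PR.ruleR Pool.Agent.Helper54PR.param)
    Pool.Agent.Helper86PR.large

end Pool.Agent.Helper91PR
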