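import Pool.Agent.Helper91_PR.Defs

set_option autoImplicit false

/-!
# Module SMALL
-/

open MeasureTheory
open scoped ENNReal NNReal

namespace Pool.Agent.Helper91PR

open Pool.Agent.Helper91PC

theorem measurable_cost' (q : ℝ) : Measurable fun z : ℝ × ℝ => cost q z.1 z.2 := by
  unfold cost
  fun_prop

theorem isProb_muV' : IsProbabilityMeasure muV := by
  constructor
  simp [muV, Real.volume_Icc]
  norm_num

/-- Transport of a coupling on a standard probability space to the unit interval. -/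
theorem optRatio_le_of_coupling {Z : Type} [MeasurableSpace Z] [StandardBorelSpace Z]
    (m : Measure Z) [IsProbabilityMeasure m] (q : ℝ) (X : ProbabilityMeasure ℝ → Z → ℝ)
    (hX : ∀ P, AEMeasurable (X P) m) (hlaw : ∀ P : ProbabilityMeasure ℝ, m.map (X P) = P)
    (K : ℝ≥0) (hK : 1 ≤ K)
    (hcost : ∀ (P Q : ProbabilityMeasure ℝ) (π : Measure (ℝ × ℝ)), π.map Prod.fst = P →
      π.map Prod.snd = Q → ∫⁻ z, cost q (X P z) (X Q z) ∂m ≤ K * ∫⁻ z, cost q z.1 z.2 ∂π) :
    optRatio q ≤ K := by
  haveI : Nonempty Z := by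
    by_contra h
    rw [not_nonempty_iff] at h
    have h1 : m Set.univ = 1 := measure_univ
    rw [Set.univ_eq_empty_iff.mpr h, measure_empty] at h1
    exact zero_ne_one h1
  obtain ⟨T, hT, hTm⟩ := m.exists_measurable_map_eq
  have hc : IsCoupling fun P u => X P (T u) := by
    constructor
    · intro P
      have h := hX P
      rw [← hTm] at h
      exact h.comp_measurable hT
    · intro P
      have h := hX P
      rw [← hTm] at h
      have h2 : Measure.map (fun u => X P (T u)) volume = (volume.map T).map (X P) := by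
        rw [AEMeasurable.map_map_of_aemeasurable h hT.aemeasurable]
        rfl
      rw [h2, hTm, hlaw]
  refine (iInf₂_le (fun P u => X P (T u)) hc).trans ?_
  refine iInf₂_le K ⟨hK, fun P Q => ?_⟩
  unfold optimalCost
  have h1 : ∫⁻ u, cost q (X P (T u)) (X Q (T u)) = ∫⁻ z, cost q (X P z) (X Q z) ∂m := by
    rw [← hTm]
    rw [lintegral_map' _ hT.aemeasurable]
    have hp := hX P
    have hq := hX Q
    rw [← hTm] at hp hq
    exact (measurable_cost' q).comp_aemeasurable (hp.prodMk hq)
  rw [h1]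
  have hK0 : (K : ℝ≥0∞) ≠ 0 := by
    have : (0 : ℝ≥0) < K := lt_of_lt_of_le one_pos hK
    exact_mod_cast this.ne'
  rw [ENNReal.mul_iInf_of_ne hK0 ENNReal.coe_ne_top]
  refine le_iInf fun π => ?_
  rw [ENNReal.mul_iInf_of_ne hK0 ENNReal.coe_ne_top]
  exact le_iInf fun hπ => hcost P Q π hπ.1 hπ.2

theorem small_of_rule (hx : XLawStatement) (hc : CostStatement) {a : ℕ} {q : ℝ}
    {φ : Fin (2 * a + 1) → Fin (2 * a + 1) → ℝ} {D : ℝ} (hpar : Par a q φ D)
    {Ω : Type} [MeasurableSpace Ω] [StandardBorelSpace Ω] (μ : Measure Ω)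
    [IsProbabilityMeasure μ] (R : Rule a Ω μ φ D) : optRatio q ≤ ENNReal.ofReal 9600 := by
  haveI := isProb_muV'
  have h := optRatio_le_of_coupling (muV.prod (Measure.infinitePi fun _ : ℤ => μ)) q
    (fun P z => XP R (P : Measure ℝ) z)
    (fun P => (hx a Ω μ φ D R (P : Measure ℝ) hpar.a_pos).1)
    (fun P => (hx a Ω μ φ D R (P : Measure ℝ) hpar.a_pos).2) (Real.toNNReal 9600)
    (by
      have : (1 : ℝ) ≤ 9600 := by norm_num
      simpa using Real.toNNReal_le_toNNReal this)
    (fun P Q π h1 h2 => hc a q φ D hpar Ω μ R P Q π h1 h2)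
  exact h

theorem small (hx : XLawStatement) (hc : CostStatement) (hQ : RuleQStatement)
    (hR : RuleRStatement) (hP : ParamStatement) : SmallStatement := by
  intro q h0 h1
  rcases le_total (1 / 2) q with h | h
  · obtain ⟨a, ha⟩ := hP.1 q h h1
    obtain ⟨R⟩ := hQ a
    haveI := isProb_muV'
    exact small_of_rule hx hc ha muV R
  · obtain ⟨a, ha⟩ := hP.2 q h0 h
    obtain ⟨Ω, _, _, μ, _, ⟨R⟩⟩ := hR a
    exact small_of_rule hx hc ha μ R

theorem final (hs : SmallStatement) (hl : LargeStatement) : FinalStatement := by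
  refine ⟨Real.toNNReal 9600, fun q hq => ?_⟩
  rcases lt_or_ge q 1 with h | h
  · exact hs q hq h
  · refine (hl q h).trans ?_
    have : (1 : ℝ) ≤ 9600 := by norm_num
    have h2 : (1 : ℝ≥0) ≤ Real.toNNReal 9600 := by simpa using Real.toNNReal_le_toNNReal this
    exact_mod_cast h2

end Pool.Agent.Helper91PR
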